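import Pool.Agent.Coarse.Family

set_option autoImplicit false

namespace Pool.Agent.Results.MP_64ab56_co.CoarsenessDisproof

open Pool.Agent.Coarse

/-- Every one of the conjectured values `ξ(K₁₃) = 7`, `ξ(K₁₈) = 15`, `ξ(K₂₁) = 21`, `ξ(K₂₄) = 28`,
`ξ(K₂₇) = 36` and `ξ(K_{9n+7}) = (9n² + 13n + 2)/2` (for every `n ≥ 1`) is too small. -/
theorem result :
    7 < coarseness (⊤ : SimpleGraph (Fin 13)) ∧
    15 < coarseness (⊤ : SimpleGraph (Fin 18)) ∧
    21 < coarseness (⊤ : SimpleGraph (Fin 21)) ∧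
    28 < coarseness (⊤ : SimpleGraph (Fin 24)) ∧
    36 < coarseness (⊤ : SimpleGraph (Fin 27)) ∧
    ∀ n : ℕ, 1 ≤ n →
      (9 * n ^ 2 + 13 * n + 2) / 2 < coarseness (⊤ : SimpleGraph (Fin (9 * n + 7))) := by
  refine ⟨coarseness_13, coarseness_18, coarseness_21, coarseness_24, coarseness_27,
    fun n hn => ?_⟩
  have h := coarseness_9n7 n hn
  omega

end Pool.Agent.Results.MP_64ab56_co.CoarsenessDisproof
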